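import Pool.Agent.H89.NV.TU2

/-!
# U_EXK: the quadratic extension exists
-/

set_option autoImplicit false

open MeasureTheory Set Filter NumberField NumberField.InfinitePlace
open scoped Real

namespace Pool.Agent.H60.NVK

open Pool.Agent.H65.CM4 Pool.Agent.H61.NVK Pool.Agent.H89.NV

variable (k : Type) [Field k] [NumberField k] [IsTotallyReal k]

theorem pf_EXK : T_EXK k := by
  intro D hD
  haveI hF : Fact (∀ r : k, r ^ 2 ≠ -(D : k) + 0 * r) := by
    refine ⟨fun r hr => ?_⟩
    obtain ⟨v⟩ : Nonempty (Pl k) := inferInstance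
    have h1 := hD v
    have h2 : rv v r ^ 2 = -rv v (D : k) := by
      rw [← map_pow, hr, zero_mul, add_zero, map_neg]
    nlinarith [sq_nonneg (rv v r)]
  refine ⟨QuadraticAlgebra k (-(D : k)) 0, inferInstance, inferInstance, ⟨?_⟩⟩
  refine ⟨QuadraticAlgebra.omega, QuadraticAlgebra.reₗ _ _, QuadraticAlgebra.imₗ _ _,
    ?_, ?_, ?_, ?_, ?_, ?_⟩
  · ext <;> simp
  · rfl
  · rfl
  · rfl
  · rfl
  · intro x
    ext <;> simp

end Pool.Agent.H60.NVK
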