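import Pool.Agent.H91.NV.LTargets

/-!
# L_FMD: the means of the first moment
-/

set_option autoImplicit false

open MeasureTheory Set Filter NumberField NumberField.InfinitePlace
open scoped Real

namespace Pool.Agent.H60.NVK

open Pool.Agent.H65.CM4 Pool.Agent.H61.NVK Pool.Agent.H89.NV Pool.Agent.H91.NV

variable (k : Type) [Field k] [NumberField k] [IsTotallyReal k]

section

variable {k}

lemma prime_PrI (P : PrI k) : Prime P.1 := Ideal.prime_of_isPrime P.2.2 P.2.1

lemma PrI_dvd {P Q : PrI k} (h : P.1 ∣ Q.1) : P = Q := by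
  apply Subtype.ext
  have h1 : Q.1 ≤ P.1 := Ideal.dvd_iff_le.1 h
  haveI := Q.2.1
  have hQ : Q.1.IsMaximal := Q.2.1.isMaximal Q.2.2
  exact (hQ.eq_of_le P.2.1.ne_top h1).symm

lemma idS_ne (S : Finset (PrI k)) : idS S ≠ ⊥ := by
  unfold idS
  exact Finset.prod_ne_zero_iff.2 fun P _ => P.2.2

lemma dvd_idS {P : PrI k} {S : Finset (PrI k)} : P.1 ∣ idS S ↔ P ∈ S := by
  constructor
  · intro h
    obtain ⟨Q, hQ, h2⟩ := (prime_PrI P).dvd_finset_prod_iff (fun Q : PrI k => Q.1) |>.1 h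
    rwa [PrI_dvd h2]
  · intro h
    exact Finset.dvd_prod_of_mem (fun Q : PrI k => Q.1) h

lemma sq_dvd_idS {P : PrI k} {S : Finset (PrI k)} : ¬ P.1 ^ 2 ∣ idS S := by
  classical
  intro h
  have h1 : P ∈ S := dvd_idS.1 ((dvd_pow_self P.1 two_ne_zero).trans h)
  have h2 : idS S = P.1 * idS (S.erase P) := by
    unfold idS
    rw [Finset.mul_prod_erase S (fun Q : PrI k => Q.1) h1]
  rw [h2, pow_two] at h
  have h3 : P.1 ∣ idS (S.erase P) := (mul_dvd_mul_iff_left P.2.2).1 h
  exact (Finset.mem_erase.1 (dvd_idS.1 h3)).1 rfl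

open Classical in
lemma vi_idS (P : PrI k) (S : Finset (PrI k)) : vi P (idS S) = if P ∈ S then 1 else 0 := by
  unfold vi
  rw [if_neg sq_dvd_idS]
  by_cases h : P ∈ S
  · rw [if_pos (dvd_idS.2 h), if_pos h]
  · rw [if_neg fun h' => h (dvd_idS.1 h'), if_neg h]

end

open Classical in
theorem pf_FMD (hLOC : T_LOC k) (hLOP : T_LOP k) : T_FMD k := by
  intro f R hf
  -- the mean for a product of primes
  have key : ∀ n S : Finset (PrI k), n ⊆ R → (∀ P ∈ R, P ∈ S ↔ P ∈ n) →
      wbar f (qN R) (wF f R n) ⊤ (idS S) =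
        ∏ P ∈ R, if P ∈ n then -(1 - (1 / np P) ^ 2) else 1 - (1 / np P) ^ 2 := by
    intro n S hn hS
    rw [(hLOP f ⊤ (idS S) R n ∅ hf (idS_ne S) hn (Finset.empty_subset R)).2]
    refine Finset.prod_congr rfl fun P hP => ?_
    obtain ⟨-, h0, h1⟩ := hLOC f ⊤ (idS S) P hf top_ne_bot (idS_ne S)
    by_cases h : P ∈ n
    · rw [if_pos h, if_pos h]
      exact h1 (by rw [vi_idS, if_pos ((hS P hP).2 h)])
    · rw [if_neg h, if_neg h]
      exact h0 (by rw [vi_idS, if_neg fun h' => h ((hS P hP).1 h')])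
  refine ⟨?_, ?_⟩
  · intro n m hn hm
    have hdisj : Disjoint m n := hm.mono_right hn
    have h1 : idS m * idS n = idS (m ∪ n) := by
      unfold idS
      rw [Finset.prod_union hdisj]
    rw [h1, key n (m ∪ n) hn, key n n hn fun P _ => Iff.rfl]
    intro P hP
    rw [Finset.mem_union]
    constructor
    · rintro (h | h)
      · exact absurd hP (Finset.disjoint_left.1 hm h)
      · exact h
    · exact Or.inr
  · have h1 : ∀ n ∈ R.powerset, wbar f (qN R) (wF f R n) ⊤ (idS n) / nS n =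
        (∏ P ∈ n, -((1 - (1 / np P) ^ 2) * (1 / np P))) * ∏ P ∈ R \ n, (1 - (1 / np P) ^ 2) := by
      intro n hn
      have hn' : n ⊆ R := Finset.mem_powerset.1 hn
      rw [key n n hn' fun P _ => Iff.rfl]
      rw [← Finset.prod_sdiff hn']
      have e1 : ∏ P ∈ R \ n, (if P ∈ n then -(1 - (1 / np P) ^ 2) else 1 - (1 / np P) ^ 2) =
          ∏ P ∈ R \ n, (1 - (1 / np P) ^ 2) := by
        refine Finset.prod_congr rfl fun P hP => ?_
        rw [if_neg (Finset.mem_sdiff.1 hP).2]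
      have e2 : ∏ P ∈ n, (if P ∈ n then -(1 - (1 / np P) ^ 2) else 1 - (1 / np P) ^ 2) =
          ∏ P ∈ n, -(1 - (1 / np P) ^ 2) := by
        refine Finset.prod_congr rfl fun P hP => ?_
        rw [if_pos hP]
      rw [e1, e2]
      unfold nS
      have e3 : ∏ P ∈ n, -((1 - (1 / np P) ^ 2) * (1 / np P)) =
          (∏ P ∈ n, -(1 - (1 / np P) ^ 2)) / ∏ P ∈ n, np P := by
        rw [← Finset.prod_div_distrib]
        refine Finset.prod_congr rfl fun P _ => ?_
        ring
      rw [e3]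
      ring
    rw [Finset.sum_congr rfl h1, ← Finset.prod_add]
    unfold dR
    rw [← mul_assoc (2 ^ dg k : ℝ), mul_one_div_cancel (by positivity), one_mul,
      ← Finset.prod_mul_distrib]
    refine Finset.prod_congr rfl fun P _ => ?_
    rw [one_div_pow]
    ring

end Pool.Agent.H60.NVK
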