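import Pool.Agent.H89.NV.TU2

/-!
# U_IDL: ideals
-/

set_option autoImplicit false

open MeasureTheory Set Filter NumberField NumberField.InfinitePlace
open scoped Real

namespace Pool.Agent.H60.NVK

open Pool.Agent.H65.CM4 Pool.Agent.H61.NVK Pool.Agent.H89.NV

variable (k : Type) [Field k] [NumberField k] [IsTotallyReal k]

variable {k} in
lemma exists_mul_eq_span {J : Ideal (𝓞 k)} (hJ : J ≠ ⊥) : ∃ (J' : Ideal (𝓞 k)) (t : 𝓞 k),
    J' ≠ ⊥ ∧ t ≠ 0 ∧ J * J' = Ideal.span {t} := by
  obtain ⟨t, ht, ht0⟩ := Submodule.exists_mem_ne_zero_of_ne_bot hJ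
  have h1 : J ∣ Ideal.span {t} := Ideal.dvd_span_singleton.2 ht
  obtain ⟨J', hJ'⟩ := h1
  refine ⟨J', t, ?_, ht0, hJ'.symm⟩
  rintro rfl
  rw [Ideal.mul_bot, Ideal.span_singleton_eq_bot] at hJ'
  exact ht0 hJ'

variable {k} in
lemma dvi_spec {A P : Ideal (𝓞 k)} (h : P ∣ A) : A = P * dvi A P := by
  unfold dvi
  have h' : ∃ J, A = P * J := h
  rw [dif_pos h']
  exact h'.choose_spec

variable {k} in
lemma nm_mul' (I J : Ideal (𝓞 k)) : nm (I * J) = nm I * nm J := by
  unfold nm
  rw [map_mul]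
  push_cast
  rfl

variable {k} in
lemma one_le_nm {I : Ideal (𝓞 k)} (hI : I ≠ ⊥) : 1 ≤ nm I := by
  unfold nm
  have : Ideal.absNorm I ≠ 0 := by rwa [Ne, Ideal.absNorm_eq_zero_iff]
  exact_mod_cast Nat.one_le_iff_ne_zero.2 this

theorem pf_IDL : T_IDL k := by
  refine ⟨fun J hJ => exists_mul_eq_span hJ, ?_, ?_, nm_mul', fun I hI => one_le_nm hI, ?_, ?_⟩
  · intro A P hA h
    have h1 := dvi_spec h
    refine ⟨h1.symm, ?_, ?_⟩
    · intro h2
      rw [h2, Ideal.mul_bot] at h1
      exact hA h1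
    · rw [← nm_mul', ← h1]
  · intro P A hP
    have h1 : P * A = P * dvi (P * A) P := dvi_spec (dvd_mul_right P A)
    exact (mul_left_cancel₀ hP h1).symm
  · intro P
    unfold np nm
    have h0 : Ideal.absNorm P.1 ≠ 0 := by
      rw [Ne, Ideal.absNorm_eq_zero_iff]
      exact P.2.2
    have h1 : Ideal.absNorm P.1 ≠ 1 := by
      rw [Ne, Ideal.absNorm_eq_one_iff]
      exact P.2.1.ne_top
    have h2 : 2 ≤ Ideal.absNorm P.1 := by omega
    exact_mod_cast h2
  · intro K _ _ J L L' hJ h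
    obtain ⟨J', t, hJ', ht, h1⟩ := exists_mul_eq_span hJ
    have h2 : Ideal.span {t} • L = Ideal.span {t} • L' := by
      rw [← h1, mul_comm, Submodule.mul_smul, Submodule.mul_smul, h]
    have hinj : Function.Injective (fun x : K => t • x) := by
      intro x y hxy
      simp only [Algebra.smul_def] at hxy
      have ht' : algebraMap (𝓞 k) K t ≠ 0 := by
        rw [IsScalarTower.algebraMap_apply (𝓞 k) k K]
        simpa using ht
      exact mul_left_cancel₀ ht' hxy
    have key : ∀ M M' : Submodule (𝓞 k) K, Ideal.span {t} • M = Ideal.span {t} • M' →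
        M ≤ M' := by
      intro M M' hM x hx
      have h3 : t • x ∈ Ideal.span {t} • M :=
        Submodule.smul_mem_smul (Ideal.mem_span_singleton_self t) hx
      rw [hM, Submodule.ideal_span_singleton_smul,
        Submodule.mem_smul_pointwise_iff_exists] at h3
      obtain ⟨y, hy, hxy⟩ := h3
      have h4 : y = x := hinj hxy
      rwa [← h4]
    exact le_antisymm (key _ _ h2) (key _ _ h2.symm)

end Pool.Agent.H60.NVK
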