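import Pool.Agent.H89.NV.TU2

/-!
# U_RSB: systems of representatives
-/

set_option autoImplicit false

open MeasureTheory Set Filter NumberField NumberField.InfinitePlace
open scoped Real

namespace Pool.Agent.H60.NVK

open Pool.Agent.H65.CM4 Pool.Agent.H61.NVK Pool.Agent.H89.NV

variable (k : Type) [Field k] [NumberField k] [IsTotallyReal k]

variable {k} in
lemma finq {I : Ideal (𝓞 k)} (hI : I ≠ ⊥) : Finite (𝓞 k ⧸ I) :=
  Ideal.finiteQuotientOfFreeOfNeBot I hI

variable {k} in
lemma range_fin {I : Ideal (𝓞 k)} (hI : I ≠ ⊥) :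
    (Set.range (Function.surjInv (Ideal.Quotient.mk_surjective (I := I)))).Finite := by
  haveI := finq hI
  exact Set.finite_range _

variable {k} in
lemma mem_Rs {I : Ideal (𝓞 k)} (hI : I ≠ ⊥) (r : 𝓞 k) :
    r ∈ Rs I ↔ ∃ q : 𝓞 k ⧸ I, Function.surjInv (Ideal.Quotient.mk_surjective (I := I)) q = r := by
  unfold Rs
  rw [dif_pos (range_fin hI)]
  simp

theorem pf_RSB : T_RSB k := by
  refine ⟨fun I hI => ⟨fun x => ?_, ?_⟩, ?_, ?_⟩
  · refine ⟨Function.surjInv (Ideal.Quotient.mk_surjective (I := I)) (Ideal.Quotient.mk I x),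
      ⟨(mem_Rs hI _).2 ⟨_, rfl⟩, ?_⟩, ?_⟩
    · rw [← Ideal.Quotient.eq,
        Function.surjInv_eq (Ideal.Quotient.mk_surjective (I := I))]
    · rintro r ⟨hr, hx⟩
      obtain ⟨q, rfl⟩ := (mem_Rs hI _).1 hr
      rw [← Ideal.Quotient.eq,
        Function.surjInv_eq (Ideal.Quotient.mk_surjective (I := I))] at hx
      rw [hx]
  · have h1 : (Rs I : Set (𝓞 k)) =
        Set.range (Function.surjInv (Ideal.Quotient.mk_surjective (I := I))) := by
      ext r
      rw [Finset.mem_coe, mem_Rs hI]
      rfl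
    have h2 : (Rs I).card = Nat.card (𝓞 k ⧸ I) := by
      rw [← Set.ncard_coe_finset, h1, ← Set.image_univ,
        Set.ncard_image_of_injective _ (Function.injective_surjInv _), Set.ncard_univ]
    rw [h2]
    rfl
  · unfold Rs
    rw [dif_neg]
    intro h
    have hinj : Function.Injective (Ideal.Quotient.mk (⊥ : Ideal (𝓞 k))) := by
      intro x y hxy
      rw [Ideal.Quotient.eq, Ideal.mem_bot, sub_eq_zero] at hxy
      exact hxy
    haveI : Infinite (𝓞 k) := inferInstance
    haveI : Infinite (𝓞 k ⧸ (⊥ : Ideal (𝓞 k))) := Infinite.of_injective _ hinj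
    exact Set.infinite_range_of_injective (Function.injective_surjInv _) h
  · intro I s t g hst hts hg
    classical
    refine Finset.sum_bij (fun x hx => (hst x hx).choose) ?_ ?_ ?_ ?_
    · intro x hx
      exact (hst x hx).choose_spec.1.1
    · intro x hx y hy hxy
      have h1 := (hst x hx).choose_spec.1
      have h2 := (hst y hy).choose_spec.1
      simp only at hxy
      rw [← hxy] at h2
      exact (hts _ h1.1).unique ⟨hx, h1.2⟩ ⟨hy, h2.2⟩
    · intro y hy
      obtain ⟨x, ⟨hx, hxy⟩, -⟩ := hts y hy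
      exact ⟨x, hx, (hst x hx).unique (hst x hx).choose_spec.1 ⟨hy, hxy⟩⟩
    · intro x hx
      have h1 := (hst x hx).choose_spec.1
      have h2 := hg (hst x hx).choose _ h1.2
      rw [add_sub_cancel] at h2
      exact h2

end Pool.Agent.H60.NVK
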