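import Pool.Agent.H91.NV.LTargets

/-!
# L_SDS: the sum over the support
-/

set_option autoImplicit false

open MeasureTheory Set Filter NumberField NumberField.InfinitePlace
open scoped Real

namespace Pool.Agent.H60.NVK

open Pool.Agent.H65.CM4 Pool.Agent.H61.NVK Pool.Agent.H89.NV Pool.Agent.H91.NV

variable (k : Type) [Field k] [NumberField k] [IsTotallyReal k]

section

variable {α : Type*} [DecidableEq α]

lemma union_sdiff_of_disj {m R n : Finset α} (hm : Disjoint m R) (hn : n ⊆ R) :
    (m ∪ n) \ R = m := by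
  ext x
  simp only [Finset.mem_sdiff, Finset.mem_union]
  constructor
  · rintro ⟨h1 | h1, h2⟩
    · exact h1
    · exact absurd (hn h1) h2
  · intro h
    exact ⟨Or.inl h, Finset.disjoint_left.1 hm h⟩

lemma union_inter_of_disj {m R n : Finset α} (hm : Disjoint m R) (hn : n ⊆ R) :
    (m ∪ n) ∩ R = n := by
  ext x
  simp only [Finset.mem_inter, Finset.mem_union]
  constructor
  · rintro ⟨h1 | h1, h2⟩
    · exact absurd h2 (Finset.disjoint_left.1 hm h1)
    · exact h1
  · intro h
    exact ⟨Or.inr h, hn h⟩

end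

theorem pf_SDS : T_SDS k := by
  classical
  intro M R P g
  unfold SD
  rw [Finset.sum_image]
  · rw [Finset.sum_product, Finset.sum_comm]
    refine Finset.sum_congr rfl fun n hn => ?_
    have hn' : n ⊆ R := Finset.mem_powerset.1 hn
    have h1 : ∀ m ∈ (DM k M).filter (fun m => Disjoint m R),
        cm P M R ((m ∪ n) \ R) * g ((m ∪ n) ∩ R) ((m ∪ n) \ R) = cm P M R m * g n m := by
      intro m hm
      have hm' : Disjoint m R := (Finset.mem_filter.1 hm).2
      rw [union_sdiff_of_disj hm' hn', union_inter_of_disj hm' hn']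
    refine (Finset.sum_congr rfl h1).trans ?_
    refine Finset.sum_subset (Finset.filter_subset _ _) fun m hm hm' => ?_
    have h2 : ¬ Disjoint m R := fun h => hm' (Finset.mem_filter.2 ⟨hm, h⟩)
    have h3 : cm P M R m = 0 := by
      unfold cm
      rw [if_neg fun h => h2 h.2]
    rw [h3, zero_mul]
  · rintro ⟨m, n⟩ hmn ⟨m', n'⟩ hmn' h
    have h1 := Finset.mem_product.1 hmn
    have h2 := Finset.mem_product.1 hmn'
    have a1 : Disjoint m R := (Finset.mem_filter.1 h1.1).2
    have a2 : Disjoint m' R := (Finset.mem_filter.1 h2.1).2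
    have b1 : n ⊆ R := Finset.mem_powerset.1 h1.2
    have b2 : n' ⊆ R := Finset.mem_powerset.1 h2.2
    simp only at h
    have e1 : m = m' := by rw [← union_sdiff_of_disj a1 b1, h, union_sdiff_of_disj a2 b2]
    have e2 : n = n' := by rw [← union_inter_of_disj a1 b1, h, union_inter_of_disj a2 b2]
    rw [e1, e2]

end Pool.Agent.H60.NVK
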