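import Pool.Agent.H89.NV.TU2
import Pool.Agent.H60.NVK.IDL

/-!
# U_STB: the lattices of the forms are stable
-/

set_option autoImplicit false

open MeasureTheory Set Filter NumberField NumberField.InfinitePlace
open scoped Real

namespace Pool.Agent.H60.NVK

open Pool.Agent.H65.CM4 Pool.Agent.H61.NVK Pool.Agent.H89.NV

variable (k : Type) [Field k] [NumberField k] [IsTotallyReal k]

section

variable {k} {D : 𝓞 k} {K : Type} [Field K] [Algebra k K]

lemma am_k (x : 𝓞 k) : algebraMap (𝓞 k) K x = algebraMap k K (x : k) :=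
  IsScalarTower.algebraMap_apply (𝓞 k) k K x

lemma char_zero' (k K : Type) [Field k] [NumberField k] [Field K] [Algebra k K] : CharZero K :=
  charZero_of_injective_algebraMap (algebraMap k K).injective

lemma mem_Lam (h : CK D K) (f A : Ideal (𝓞 k)) (b : 𝓞 k) (x : K) :
    x ∈ Lam h f A b ↔ ∃ y ∈ A * f, ∃ c : 𝓞 k,
      x = algebraMap (𝓞 k) K y + algebraMap (𝓞 k) K c * ((algebraMap (𝓞 k) K b + h.s) / 2) := by
  unfold Lam
  rw [Submodule.mem_sup]
  constructor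
  · rintro ⟨y, hy, z, hz, rfl⟩
    obtain ⟨y', hy', rfl⟩ := hy
    obtain ⟨c, rfl⟩ := Submodule.mem_span_singleton.1 hz
    refine ⟨y', hy', c, ?_⟩
    rw [Algebra.smul_def]
    rfl
  · rintro ⟨y, hy, c, rfl⟩
    refine ⟨_, ⟨y, hy, rfl⟩, _, Submodule.mem_span_singleton.2 ⟨c, rfl⟩, ?_⟩
    rw [Algebra.smul_def]
    rfl

lemma phi_mul (I f : Ideal (𝓞 k)) (φ : k) (hφ : ∀ y ∈ f, ∃ z : 𝓞 k, (z : k) = φ * y)
    (q : 𝓞 k) (hq : q ∈ I * f) : ∃ z ∈ I, (z : k) = φ * q := by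
  induction hq using Submodule.mul_induction_on' with
  | mem_mul_mem m hm n hn =>
    obtain ⟨z, hz⟩ := hφ n hn
    refine ⟨m * z, I.mul_mem_right z hm, ?_⟩
    have e1 : ((m * z : 𝓞 k) : k) = (m : k) * (z : k) := map_mul (algebraMap (𝓞 k) k) m z
    have e2 : ((m * n : 𝓞 k) : k) = (m : k) * (n : k) := map_mul (algebraMap (𝓞 k) k) m n
    rw [e1, e2, hz]
    ring
  | add x _ y _ hx hy =>
    obtain ⟨z, hz, hz'⟩ := hx
    obtain ⟨w, hw, hw'⟩ := hy
    refine ⟨z + w, I.add_mem hz hw, ?_⟩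
    have e1 : ((z + w : 𝓞 k) : k) = (z : k) + (w : k) := map_add (algebraMap (𝓞 k) k) z w
    have e2 : ((x + y : 𝓞 k) : k) = (x : k) + (y : k) := map_add (algebraMap (𝓞 k) k) x y
    rw [e1, e2, hz', hw']
    ring

lemma stb_Lam (hBMD : T_BMD k) (h : CK D K) (f : Ideal (𝓞 k)) (b₀ : 𝓞 k) (hf : f ≠ ⊥)
    (hb₀ : Fm f D ⊤ b₀) (A : Ideal (𝓞 k)) (b : 𝓞 k) (hb : Fm f D A b) :
    Stb h f b₀ (Lam h f A b) := by
  haveI : CharZero K := char_zero' k K
  intro x hx φ hφ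
  obtain ⟨y, hy, c, rfl⟩ := (mem_Lam h f A b x).1 hx
  have hA1 : A * f ^ 2 ≤ f ^ 2 := Ideal.mul_le_right
  have h4 : ni k 4 * (A * f ^ 2) ≤ ni k 4 * f ^ 2 := Ideal.mul_mono_right hA1
  have h5 : ni k 4 * (⊤ * f ^ 2) ≤ ni k 4 * f ^ 2 := Ideal.mul_mono_right Ideal.mul_le_right
  have h1 := hBMD f D b₀ b hf hb₀.mem hb.mem (h5 hb₀.dis) (h4 hb.dis)
  unfold ni at h1
  rw [Ideal.mem_span_singleton_mul] at h1
  obtain ⟨r, hr, hr'⟩ := h1
  have h2 := hb.dis
  unfold ni at h2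
  rw [Ideal.mem_span_singleton_mul] at h2
  obtain ⟨q, hq, hq'⟩ := h2
  have hAf : A * f ≤ f := Ideal.mul_le_right
  have hq2 : q ∈ A * f * f := by
    rw [mul_assoc, ← pow_two]
    exact hq
  obtain ⟨zq, hzq, hzq'⟩ := phi_mul (A * f) f φ hφ q hq2
  obtain ⟨zr, hzr⟩ := hφ r hr
  obtain ⟨zy, hzy⟩ := hφ y (hAf hy)
  obtain ⟨zb, hzb⟩ := hφ b hb.mem
  rw [mem_Lam]
  refine ⟨zr * y - c * zq, (A * f).sub_mem ((A * f).mul_mem_left _ hy)
    ((A * f).mul_mem_left _ hzq), zr * c + zy + c * zb, ?_⟩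
  have e1 : algebraMap (𝓞 k) K b₀ = algebraMap (𝓞 k) K b + 2 * algebraMap (𝓞 k) K r := by
    have : b₀ = b + 2 * r := by
      have := hr'
      push_cast at this
      linear_combination -this
    rw [this, map_add, map_mul, map_ofNat]
  have e2 : 4 * algebraMap (𝓞 k) K q = algebraMap (𝓞 k) K b ^ 2 + algebraMap (𝓞 k) K D := by
    have := congrArg (algebraMap (𝓞 k) K) hq'
    rw [map_mul, map_add, map_pow, map_natCast, Nat.cast_ofNat] at this
    exact this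
  have e3 : h.s * h.s = -algebraMap (𝓞 k) K D := by
    rw [h.sq, am_k]
  have ez : ∀ {z x : 𝓞 k}, (z : k) = φ * x →
      algebraMap (𝓞 k) K z = algebraMap k K φ * algebraMap (𝓞 k) K x := by
    intro z x hzx
    rw [am_k, hzx, map_mul, ← am_k]
  have f1 := ez hzq'
  have f2 := ez hzr
  have f3 := ez hzy
  have f4 := ez hzb
  simp only [map_sub, map_add, map_mul]
  rw [f1, f2, f3, f4, e1]
  have e4 : algebraMap (𝓞 k) K q =
      (algebraMap (𝓞 k) K b ^ 2 + algebraMap (𝓞 k) K D) / 4 := by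
    rw [← e2]
    field_simp
  rw [e4]
  field_simp
  linear_combination (4 * algebraMap k K φ * algebraMap (𝓞 k) K c) * e3

lemma mem_hom_smul {h : CK D K} {f : Ideal (𝓞 k)} {b₀ : 𝓞 k} {L : Submodule (𝓞 k) K}
    (J : Ideal (𝓞 k)) (g : K) (hL : Stb h f b₀ L) : Stb h f b₀ (hom J g L) := by
  intro x hx φ hφ
  unfold hom at hx ⊢
  induction hx using Submodule.smul_induction_on' with
  | smul j hj l hl =>
    obtain ⟨l', hl', rfl⟩ := hl
    have h1 := hL l' hl' φ hφ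
    have h2 : algebraMap k K φ * ((algebraMap (𝓞 k) K b₀ + h.s) / 2 *
        (j • (LinearMap.mulLeft (𝓞 k) g) l')) =
        j • (LinearMap.mulLeft (𝓞 k) g)
          (algebraMap k K φ * ((algebraMap (𝓞 k) K b₀ + h.s) / 2 * l')) := by
      simp only [LinearMap.mulLeft_apply, Algebra.smul_def]
      ring
    rw [h2]
    exact Submodule.smul_mem_smul hj (Submodule.mem_map_of_mem h1)
  | add x _ y _ hx hy =>
    rw [mul_add, mul_add]
    exact Submodule.add_mem _ hx hy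

lemma stb_of_hom {h : CK D K} {f : Ideal (𝓞 k)} {b₀ : 𝓞 k} {L : Submodule (𝓞 k) K}
    {J : Ideal (𝓞 k)} {g : K} (hJ : J ≠ ⊥) (hg : g ≠ 0) (hL : Stb h f b₀ (hom J g L)) :
    Stb h f b₀ L := by
  obtain ⟨J', t, hJ', ht, h1⟩ := exists_mul_eq_span hJ
  have h2 := mem_hom_smul J' g⁻¹ hL
  have h3 : hom J' g⁻¹ (hom J g L) = Ideal.span {t} • L := by
    unfold hom
    rw [Submodule.map_smul'', ← Submodule.map_comp, ← Submodule.mul_smul, mul_comm J' J, h1]
    have : (LinearMap.mulLeft (𝓞 k) g⁻¹).comp (LinearMap.mulLeft (𝓞 k) g) = LinearMap.id := by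
      ext x
      simp only [LinearMap.comp_apply, LinearMap.mulLeft_apply, LinearMap.id_apply]
      rw [← mul_assoc, inv_mul_cancel₀ hg, one_mul]
    rw [this, Submodule.map_id]
  rw [h3] at h2
  intro x hx φ hφ
  have h4 : t • x ∈ Ideal.span {t} • L :=
    Submodule.smul_mem_smul (Ideal.mem_span_singleton_self t) hx
  have h5 := h2 _ h4 φ hφ
  rw [Submodule.ideal_span_singleton_smul, Submodule.mem_smul_pointwise_iff_exists] at h5
  obtain ⟨y, hy, hxy⟩ := h5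
  have ht' : algebraMap (𝓞 k) K t ≠ 0 := by
    rw [am_k]
    simpa using ht
  have h6 : y = algebraMap k K φ * ((algebraMap (𝓞 k) K b₀ + h.s) / 2 * x) := by
    apply mul_left_cancel₀ ht'
    rw [Algebra.smul_def, Algebra.smul_def] at hxy
    rw [hxy]
    ring
  rw [← h6]
  exact hy

end

theorem pf_STB (hBMD : T_BMD k) : T_STB k := by
  intro D _ K _ _ h f b₀ hf hb₀
  exact ⟨fun A b hb => stb_Lam hBMD h f b₀ hf hb₀ A b hb,
    fun L J g => ⟨mem_hom_smul J g, stb_of_hom⟩⟩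

end Pool.Agent.H60.NVK
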